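import Pool.Agent.Helper37.MG.Unfold

/-!
# Geodesics in a metric graph and the unfolding map
-/

set_option autoImplicit false

namespace Pool.Agent.Helper37.MG

open Real Finset

variable {V : Type} {E : V → V → Prop} {θ : V → V → ℝ}

theorem AC.pt_left {x y : V × V × ℝ} {φ : ℝ} (h : AC E θ x y φ) (hp : ∀ a b, E a b → 0 < θ a b)
    (hy : Pt E θ y) : Pt E θ x := by
  cases h with
  | nil => exact hy
  | cons h1 _ =>
    cases h1 with
    | move p1 _ => exact p1
    | swap p1 => exact p1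
    | switch p1 _ => exact Pt.zero hp p1

/-- Two points of the circle near each other. -/
theorem CD.sign {f g φ : ℝ} (h : CD f g (φ - g)) (hg : 0 < g) (hf : |f| ≤ π) (hφ : φ ≤ |f|)
    (hπ : φ < π) : f = φ := by
  obtain ⟨n, hn⟩ := h
  obtain ⟨h1, h2⟩ := abs_le.1 hn
  obtain ⟨h3, h4⟩ := abs_le.1 hf
  have hpi := Real.pi_pos
  have hn0 : n = 0 := by
    by_contra h5
    rcases lt_or_gt_of_ne h5 with h6 | h6
    · have : (n : ℝ) ≤ -1 := by exact_mod_cast (by omega : n ≤ -1)
      nlinarith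
    · have : (1 : ℝ) ≤ n := by exact_mod_cast (by omega : 1 ≤ n)
      nlinarith
  rw [hn0] at h1 h2
  simp only [Int.cast_zero, mul_zero, sub_zero] at h1 h2
  rcases le_total 0 f with h6 | h6
  · rw [abs_of_nonneg h6] at hφ
    linarith
  · rw [abs_of_nonpos h6] at hφ
    linarith

/-- **Geodesics.** A shortest chain of length less than `π` from `x` to `y` passes at distance `ψ`
through a point such that the unfolding map based at this point is isometric along it. -/
theorem WG.geodesic (hG : WG E θ) {x y : V × V × ℝ} (hx : Pt E θ x) (hy : Pt E θ y) {φ : ℝ}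
    (h : AC E θ x y φ) (hmin : ∀ r, AC E θ x y r → φ ≤ r) (hπ : φ < π) {ψ : ℝ} (h0 : 0 ≤ ψ)
    (h1 : ψ < φ) : ∃ s t ζ, E s t ∧ 0 ≤ ζ ∧ ζ < θ s t ∧ AC E θ x (s, t, ζ) ψ ∧
      AC E θ (s, t, ζ) y (φ - ψ) ∧ F E θ s t ζ x = - ψ ∧ F E θ s t ζ y = φ - ψ := by
  obtain ⟨s, t, ζ, ζ₁, hst, h2, h3, h4, h5, h6⟩ := h.split hG ψ h0 h1
  have hζ : ζ ≤ θ s t := by linarith
  have hz : Pt E θ (s, t, ζ) := ⟨hst, h2, hζ⟩
  have hz1 : Pt E θ (s, t, ζ₁) := ⟨hst, by simp only; linarith, h4⟩
  have h7 : AC E θ (s, t, ζ) y (φ - ψ) := by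
    refine ((AC.of _ _ (St.move hz hz1)).trans h6).cast ?_
    rw [abs_of_nonpos (by linarith)]
    ring
  refine ⟨s, t, ζ, hst, h2, by linarith, h5, h7, ?_, ?_⟩
  · -- the point `x`
    have l1 := F_ac hG hst h2 hζ h5
    rw [F_self] at l1
    have l2 := F_abs_le hG hst h2 hζ hx
    have l3 : |F E θ s t ζ x| ≤ ψ := by
      obtain ⟨n, hn⟩ := l1
      rw [sub_zero] at hn
      obtain ⟨e1, e2⟩ := abs_le.1 hn
      obtain ⟨e3, e4⟩ := abs_le.1 l2
      have hpi := Real.pi_pos
      have hn0 : n = 0 := by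
        by_contra h8
        rcases lt_or_gt_of_ne h8 with h9 | h9
        · have : (n : ℝ) ≤ -1 := by exact_mod_cast (by omega : n ≤ -1)
          nlinarith
        · have : (1 : ℝ) ≤ n := by exact_mod_cast (by omega : 1 ≤ n)
          nlinarith
      rw [hn0] at hn
      simpa using hn
    have l4 := F_reach hG hst h2 hζ hx (by linarith)
    have l5 := hmin _ ((l4.symm hG.symm hG.comm).trans h7)
    have l6 : |F E θ s t ζ x| = ψ := by linarith
    rcases abs_choice (F E θ s t ζ x) with h8 | h8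
    · rcases eq_or_lt_of_le h0 with h9 | h9
      · rw [← h9] at l6 ⊢
        rw [neg_zero]
        exact abs_eq_zero.1 l6
      exfalso
      rw [h8] at l6
      have l7 := F_side hG hst h2 h3 h4 hx (by linarith) (by linarith)
      have l8 := hmin _ ((l7.symm hG.symm hG.comm).trans h6)
      rw [l6] at l8
      rcases abs_cases (ψ - (ζ₁ - ζ)) with ⟨e1, e2⟩ | ⟨e1, e2⟩ <;> rw [e1] at l8 <;> linarith
    · linarith
  · -- the point `y`
    have l1 := F_ac hG hst h2 hζ h6
    rw [F_st] at l1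
    have l2 := F_abs_le hG hst h2 hζ hy
    have l3 : φ - ψ ≤ |F E θ s t ζ y| := by
      rcases lt_or_ge |F E θ s t ζ y| π with h8 | h8
      · have := hmin _ (h5.trans (F_reach hG hst h2 hζ hy h8))
        linarith
      · linarith
    exact CD.sign l1.symm (by linarith) l2 l3 (by linarith)

/-- **The local structure of a metric graph.** For two points `x`, `y` and `ψ` either there is a
shortest chain of length less than `π`, and unfolding maps along it, or the distance is at least
`π`. -/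
theorem WG.alternative (hG : WG E θ) {x y : V × V × ℝ} (hx : Pt E θ x) (hy : Pt E θ y) :
    (∃ φ, φ < π ∧ AC E θ x y φ ∧ ∀ r, AC E θ x y r → φ ≤ r) ∨ ∀ r, AC E θ x y r → π ≤ r := by
  by_cases h : ∃ r, r < π ∧ AC E θ x y r
  · obtain ⟨r, h1, h2⟩ := h
    obtain ⟨φ, h3, h4, h5⟩ := hG.exists_least hx hy h2
    exact Or.inl ⟨φ, by linarith, h4, h5⟩
  · push Not at h
    right
    intro r hr
    by_contra h1
    exact h r (not_le.1 h1) hr

end Pool.Agent.Helper37.MG
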