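import Pool.Agent.Helper37.MG.Walk

/-!
# Paths between arbitrary points of a metric graph

A point of the metric graph is given by a triple `(a, b, α)`: the point of the edge from `a` to `b`
at distance `α` from `a`.
-/

set_option autoImplicit false

namespace Pool.Agent.Helper37.MG

open Real Finset

variable {V : Type}

/-- The triple is a point. -/
def Pt (E : V → V → Prop) (θ : V → V → ℝ) (x : V × V × ℝ) : Prop :=
  E x.1 x.2.1 ∧ 0 ≤ x.2.2 ∧ x.2.2 ≤ θ x.1 x.2.1

/-- Elementary moves: along an edge, change of the orientation of the edge, change of the edge at a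
vertex. -/
inductive St (E : V → V → Prop) (θ : V → V → ℝ) : V × V × ℝ → V × V × ℝ → ℝ → Prop
  | move {a b : V} {α β : ℝ} : Pt E θ (a, b, α) → Pt E θ (a, b, β) →
      St E θ (a, b, α) (a, b, β) |α - β|
  | swap {a b : V} {α : ℝ} : Pt E θ (a, b, α) → St E θ (a, b, α) (b, a, θ a b - α) 0
  | switch {a b c : V} : E a b → E a c → St E θ (a, b, 0) (a, c, 0) 0

/-- Chains of moves. -/
inductive AC (E : V → V → Prop) (θ : V → V → ℝ) : V × V × ℝ → V × V × ℝ → ℝ → Prop
  | nil (x : V × V × ℝ) : AC E θ x x 0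
  | cons {x y z : V × V × ℝ} {δ φ : ℝ} : St E θ x y δ → AC E θ y z φ → AC E θ x z (δ + φ)

variable {E : V → V → Prop} {θ : V → V → ℝ}

theorem AC.of (x y : V × V × ℝ) {δ : ℝ} (h : St E θ x y δ) : AC E θ x y δ := by
  have := AC.cons h (AC.nil y)
  rwa [add_zero] at this

theorem AC.trans {x y z : V × V × ℝ} {φ ψ : ℝ} (h : AC E θ x y φ) (h' : AC E θ y z ψ) :
    AC E θ x z (φ + ψ) := by
  induction h with
  | nil => rwa [zero_add]
  | cons h1 _ ih => rw [add_assoc]; exact AC.cons h1 (ih h')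

theorem AC.cast {x y : V × V × ℝ} {φ ψ : ℝ} (h : AC E θ x y φ) (he : φ = ψ) : AC E θ x y ψ :=
  he ▸ h

theorem Pt.swap (hs : ∀ a b, E a b → E b a) (hc : ∀ a b, θ a b = θ b a) {a b : V} {α : ℝ}
    (h : Pt E θ (a, b, α)) : Pt E θ (b, a, θ a b - α) :=
  ⟨hs _ _ h.1, by have := h.2.2; simp only at this ⊢; linarith,
    by have := h.2.1; simp only at this ⊢; rw [hc b a]; linarith⟩

theorem Pt.zero (hp : ∀ a b, E a b → 0 < θ a b) {a b : V} (h : E a b) : Pt E θ (a, b, 0) :=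
  ⟨h, le_rfl, (hp _ _ h).le⟩

theorem Pt.last (hp : ∀ a b, E a b → 0 < θ a b) {a b : V} (h : E a b) : Pt E θ (a, b, θ a b) :=
  ⟨h, (hp _ _ h).le, le_rfl⟩

theorem St.symm (hs : ∀ a b, E a b → E b a) (hc : ∀ a b, θ a b = θ b a) {x y : V × V × ℝ} {δ : ℝ}
    (h : St E θ x y δ) : St E θ y x δ := by
  cases h with
  | move h1 h2 => rw [abs_sub_comm]; exact St.move h2 h1
  | @swap a b α h1 =>
    have := St.swap (h1.swap hs hc)
    rwa [hc b a, sub_sub_cancel] at this
  | switch h1 h2 => exact St.switch h2 h1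

theorem AC.symm (hs : ∀ a b, E a b → E b a) (hc : ∀ a b, θ a b = θ b a) {x y : V × V × ℝ} {φ : ℝ}
    (h : AC E θ x y φ) : AC E θ y x φ := by
  induction h with
  | nil => exact AC.nil _
  | @cons x y z δ φ h1 _ ih =>
    have := ih.trans (AC.of _ _ (h1.symm hs hc))
    rwa [add_comm] at this

theorem AC.nonneg {x y : V × V × ℝ} {φ : ℝ} (h : AC E θ x y φ) : 0 ≤ φ := by
  induction h with
  | nil => exact le_rfl
  | cons h1 _ ih =>
    cases h1 with
    | move => positivity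
    | swap => simpa using ih
    | switch => simpa using ih

theorem St.mono {E' : V → V → Prop} (hE : ∀ a b, E a b → E' a b) {x y : V × V × ℝ} {δ : ℝ}
    (h : St E θ x y δ) : St E' θ x y δ := by
  cases h with
  | move h1 h2 => exact St.move ⟨hE _ _ h1.1, h1.2⟩ ⟨hE _ _ h2.1, h2.2⟩
  | swap h1 => exact St.swap ⟨hE _ _ h1.1, h1.2⟩
  | switch h1 h2 => exact St.switch (hE _ _ h1) (hE _ _ h2)

theorem AC.mono {E' : V → V → Prop} (hE : ∀ a b, E a b → E' a b) {x y : V × V × ℝ} {φ : ℝ}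
    (h : AC E θ x y φ) : AC E' θ x y φ := by
  induction h with
  | nil => exact AC.nil _
  | cons h1 _ ih => exact AC.cons (h1.mono hE) ih

/-- Walks are chains. -/
theorem AC.of_wk (hG : WG E θ) {a c : V} {L : ℝ} (h : Wk E θ a c L) :
    ∀ b d, E a b → E c d → AC E θ (a, b, 0) (c, d, 0) L := by
  induction h with
  | nil a => exact fun b d h1 h2 => AC.of _ _ (St.switch h1 h2)
  | @cons a a' c L h1 h2 ih =>
    intro b d h3 h4
    have e1 : St E θ (a, b, 0) (a, a', 0) 0 := St.switch h3 h1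
    have e2 : St E θ (a, a', 0) (a, a', θ a a') |0 - θ a a'| :=
      St.move (Pt.zero hG.pos h1) (Pt.last hG.pos h1)
    have e3 : St E θ (a, a', θ a a') (a', a, θ a a' - θ a a') 0 := St.swap (Pt.last hG.pos h1)
    rw [zero_sub, abs_neg, abs_of_pos (hG.pos _ _ h1)] at e2
    rw [sub_self] at e3
    have := (AC.of _ _ e1).trans ((AC.of _ _ e2).trans ((AC.of _ _ e3).trans
      (ih a d (hG.symm _ _ h1) h4)))
    rwa [zero_add, zero_add] at this

/-- `e` is an end of the edge of `x`, at distance `o` from `x`. -/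
def Off (θ : V → V → ℝ) (x : V × V × ℝ) (e : V) (o : ℝ) : Prop :=
  (e = x.1 ∧ o = x.2.2) ∨ (e = x.2.1 ∧ o = θ x.1 x.2.1 - x.2.2)

/-- The lengths of the straight chains from `x` to `y`. -/
def Nrm (E : V → V → Prop) (θ : V → V → ℝ) (x y : V × V × ℝ) (r : ℝ) : Prop :=
  (∃ β, (y = (x.1, x.2.1, β) ∨ y = (x.2.1, x.1, θ x.1 x.2.1 - β)) ∧ r = |x.2.2 - β|) ∨
  (x = y ∧ r = 0) ∨
  ∃ e e' o o' L, Off θ x e o ∧ Off θ y e' o' ∧ Wk E θ e e' L ∧ r = o + L + o'

theorem Off.swap (hc : ∀ a b, θ a b = θ b a) {a b e : V} {α o : ℝ} (h : Off θ (a, b, α) e o) :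
    Off θ (b, a, θ a b - α) e o := by
  rcases h with ⟨h1, h2⟩ | ⟨h1, h2⟩
  · exact Or.inr ⟨h1, by simp only at h2 ⊢; rw [h2, hc b a]; ring⟩
  · exact Or.inl ⟨h1, h2⟩

theorem Off.nonneg {x : V × V × ℝ} (hx : Pt E θ x) {e : V} {o : ℝ} (h : Off θ x e o) : 0 ≤ o := by
  rcases h with ⟨_, h2⟩ | ⟨_, h2⟩
  · rw [h2]; exact hx.2.1
  · rw [h2]; exact sub_nonneg.2 hx.2.2

/-- From an end of the edge to the point. -/
theorem AC.off (hG : WG E θ) {x : V × V × ℝ} (hx : Pt E θ x) {e : V} {o : ℝ} (h : Off θ x e o) :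
    ∃ f, E e f ∧ AC E θ x (e, f, 0) o := by
  obtain ⟨a, b, α⟩ := x
  rcases h with ⟨h1, h2⟩ | ⟨h1, h2⟩
  · simp only at h1 h2
    subst h1 h2
    refine ⟨b, hx.1, ?_⟩
    have := St.move hx (Pt.zero hG.pos hx.1)
    rw [sub_zero, abs_of_nonneg hx.2.1] at this
    exact AC.of _ _ this
  · simp only at h1 h2
    subst h1 h2
    refine ⟨a, hG.symm _ _ hx.1, ?_⟩
    have h3 := St.move hx (Pt.last hG.pos hx.1)
    have h4 := St.swap (Pt.last hG.pos hx.1)
    simp only at h3 h4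
    rw [sub_self] at h4
    rw [abs_sub_comm, abs_of_nonneg (sub_nonneg.2 hx.2.2)] at h3
    have := (AC.of _ _ h3).trans (AC.of _ _ h4)
    rwa [add_zero] at this

/-- Straight chains are chains. -/
theorem Nrm.ac (hG : WG E θ) {x y : V × V × ℝ} (hx : Pt E θ x) (hy : Pt E θ y) {r : ℝ}
    (h : Nrm E θ x y r) : AC E θ x y r := by
  rcases h with ⟨β, h1, h2⟩ | ⟨h1, h2⟩ | ⟨e, e', o, o', L, h1, h2, h3, h4⟩
  · obtain ⟨a, b, α⟩ := x
    rcases h1 with h1 | h1
    · subst h1 h2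
      exact AC.of _ _ (St.move hx hy)
    · subst h1 h2
      have h3 : Pt E θ (a, b, β) := by
        refine ⟨hx.1, ?_, ?_⟩
        · have := hy.2.2
          simp only at this ⊢
          rw [hG.comm b a] at this
          linarith
        · have := hy.2.1
          simp only at this ⊢
          linarith
      have := (AC.of _ _ (St.move hx h3)).trans (AC.of _ _ (St.swap h3))
      rwa [add_zero] at this
  · rw [h1, h2]; exact AC.nil _
  · obtain ⟨f, h5, h6⟩ := AC.off hG hx h1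
    obtain ⟨f', h7, h8⟩ := AC.off hG hy h2
    have := h6.trans ((AC.of_wk hG h3 f f' h5 h7).trans (h8.symm hG.symm hG.comm))
    rwa [← add_assoc, ← h4] at this

/-- Straightening. -/
theorem AC.straight (hG : WG E θ) {x y : V × V × ℝ} {φ : ℝ} (h : AC E θ x y φ)
    (hy : Pt E θ y) : ∃ r ≤ φ, Nrm E θ x y r := by
  induction h with
  | nil x => exact ⟨0, le_rfl, Or.inr (Or.inl ⟨rfl, rfl⟩)⟩
  | @cons x z y δ φ h1 _ ih =>
    obtain ⟨r, hr, h2⟩ := ih hy
    cases h1 with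
    | @move a b α β p1 p2 =>
      rcases h2 with ⟨γ, h3, h4⟩ | ⟨h3, h4⟩ | ⟨e, e', o, o', L, h3, h4, h5, h6⟩
      · refine ⟨|α - γ|, ?_, Or.inl ⟨γ, h3, rfl⟩⟩
        simp only at h4
        rw [h4] at hr
        have := abs_sub_le α β γ
        linarith
      · exact ⟨|α - β|, by rw [h4] at hr; linarith, Or.inl ⟨β, Or.inl h3.symm, rfl⟩⟩
      · rcases h3 with ⟨h7, h8⟩ | ⟨h7, h8⟩
        · refine ⟨α + L + o', ?_, Or.inr (Or.inr ⟨e, e', α, o', L, Or.inl ⟨h7, rfl⟩, h4, h5, rfl⟩)⟩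
          simp only at h8
          have := le_abs_self (α - β)
          rw [h6, h8] at hr
          linarith
        · refine ⟨θ a b - α + L + o', ?_, Or.inr (Or.inr ⟨e, e', θ a b - α, o', L,
            Or.inr ⟨h7, rfl⟩, h4, h5, rfl⟩)⟩
          simp only at h8
          have := neg_abs_le (α - β)
          rw [h6, h8] at hr
          linarith
    | @swap a b α p1 =>
      rw [zero_add]
      rcases h2 with ⟨γ, h3, h4⟩ | ⟨h3, h4⟩ | ⟨e, e', o, o', L, h3, h4, h5, h6⟩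
      · simp only at h3 h4
        refine ⟨r, hr, Or.inl ⟨θ a b - γ, ?_, ?_⟩⟩
        · simp only
          rcases h3 with h3 | h3
          · exact Or.inr (by rw [h3]; simp)
          · exact Or.inl (by rw [h3, hG.comm b a])
        · rw [h4, abs_sub_comm]
          congr 1
          ring
      · refine ⟨r, hr, Or.inl ⟨α, Or.inr h3.symm, ?_⟩⟩
        simp [h4]
      · refine ⟨r, hr, Or.inr (Or.inr ⟨e, e', o, o', L, ?_, h4, h5, h6⟩)⟩
        have := h3.swap hG.comm
        rwa [hG.comm b a, sub_sub_cancel] at this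
    | @switch a b c p1 p2 =>
      rw [zero_add]
      rcases h2 with ⟨γ, h3, h4⟩ | ⟨h3, h4⟩ | ⟨e, e', o, o', L, h3, h4, h5, h6⟩
      · simp only at h3 h4
        rw [zero_sub, abs_neg] at h4
        refine ⟨r, hr, Or.inr (Or.inr ⟨a, a, 0, |γ|, 0, Or.inl ⟨rfl, rfl⟩, ?_, Wk.nil _, ?_⟩)⟩
        · rcases h3 with h3 | h3
          · subst h3
            exact Or.inl ⟨rfl, abs_of_nonneg hy.2.1⟩
          · subst h3
            have h5 := hy.2.2
            simp only at h5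
            rw [hG.comm c a] at h5
            refine Or.inr ⟨rfl, ?_⟩
            simp only
            rw [hG.comm c a, sub_sub_cancel]
            exact abs_of_nonneg (by linarith)
        · rw [h4]
          ring
      · exact ⟨0, by rw [← h4]; exact hr, Or.inr (Or.inr ⟨a, a, 0, 0, 0, Or.inl ⟨rfl, rfl⟩,
          by rw [← h3]; exact Or.inl ⟨rfl, rfl⟩, Wk.nil _, by ring⟩)⟩
      · rcases h3 with ⟨h7, h8⟩ | ⟨h7, h8⟩
        · exact ⟨r, hr, Or.inr (Or.inr ⟨e, e', o, o', L, Or.inl ⟨h7, h8⟩, h4, h5, h6⟩)⟩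
        · simp only at h7 h8
          subst h7 h8
          refine ⟨r, hr, Or.inr (Or.inr ⟨a, e', 0, o', θ a e + L, Or.inl ⟨rfl, rfl⟩, h4,
            Wk.cons p2 h5, ?_⟩)⟩
          rw [h6]
          ring

theorem Off.finite (θ : V → V → ℝ) (x : V × V × ℝ) : {o | ∃ e, Off θ x e o}.Finite := by
  refine ((Set.finite_singleton x.2.2).union (Set.finite_singleton (θ x.1 x.2.1 - x.2.2))).subset ?_
  rintro o ⟨e, ⟨_, h⟩ | ⟨_, h⟩⟩
  · exact Or.inl h
  · exact Or.inr h

/-- There is a shortest chain. -/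
theorem WG.exists_least (hG : WG E θ) {x y : V × V × ℝ} (hx : Pt E θ x) (hy : Pt E θ y) {φ : ℝ}
    (h : AC E θ x y φ) : ∃ r ≤ φ, AC E θ x y r ∧ ∀ ψ, AC E θ x y ψ → r ≤ ψ := by
  classical
  obtain ⟨r₁, hr₁, h₁⟩ := h.straight hG hy
  obtain ⟨S, hS⟩ : ∃ S, S = {r | Nrm E θ x y r ∧ r ≤ r₁} := ⟨_, rfl⟩
  have hfin : S.Finite := by
    have e1 : ({r | ∃ β, (y = (x.1, x.2.1, β) ∨ y = (x.2.1, x.1, θ x.1 x.2.1 - β)) ∧
        r = |x.2.2 - β|}).Finite := by
      refine ((Set.finite_singleton |x.2.2 - y.2.2|).union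
        (Set.finite_singleton |x.2.2 - (θ x.1 x.2.1 - y.2.2)|)).subset ?_
      rintro r ⟨β, h | h, rfl⟩
      · left
        rw [h]
        exact rfl
      · right
        rw [h]
        simp
    have e2 : {r | ∃ e e' o o' L, Off θ x e o ∧ Off θ y e' o' ∧ Wk E θ e e' L ∧
        r = o + L + o' ∧ r ≤ r₁}.Finite := by
      refine (Set.Finite.image2 (fun p q => p + q) (Set.Finite.image2 (fun p q => p + q)
        (Off.finite θ x) (hG.finite_le r₁)) (Off.finite θ y)).subset ?_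
      rintro r ⟨e, e', o, o', L, h1, h2, h3, h4, h5⟩
      have := h1.nonneg hx
      have := h2.nonneg hy
      exact ⟨o + L, ⟨o, ⟨e, h1⟩, L, ⟨e, e', h3, by linarith⟩, rfl⟩, o', ⟨e', h2⟩, h4.symm⟩
    refine ((e1.union (Set.finite_singleton 0)).union e2).subset ?_
    rw [hS]
    rintro r ⟨h1 | ⟨_, h1⟩ | ⟨e, e', o, o', L, h1, h2, h3, h4⟩, h5⟩
    · exact Or.inl (Or.inl h1)
    · exact Or.inl (Or.inr h1)
    · exact Or.inr ⟨e, e', o, o', L, h1, h2, h3, h4, h5⟩
  have hne : S.Nonempty := by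
    rw [hS]
    exact ⟨r₁, h₁, le_rfl⟩
  obtain ⟨r, hr1, hr2⟩ := hfin.exists_minimalFor id S hne
  have hmin : ∀ s ∈ S, r ≤ s := fun s hs => by
    rcases le_total r s with h3 | h3
    · exact h3
    · exact hr2 hs h3
  rw [hS] at hr1 hmin
  refine ⟨r, hr1.2.trans hr₁, hr1.1.ac hG hx hy, fun ψ hψ => ?_⟩
  obtain ⟨s, hs, h3⟩ := hψ.straight hG hy
  rcases le_total s r₁ with h4 | h4
  · exact (hmin s ⟨h3, h4⟩).trans hs
  · exact (hr1.2.trans h4).trans hs

/-- The point at distance `ψ` on a chain. -/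
theorem AC.split (hG : WG E θ) {x y : V × V × ℝ} {φ : ℝ} (h : AC E θ x y φ) :
    ∀ ψ, 0 ≤ ψ → ψ < φ → ∃ s t ζ ζ₁, E s t ∧ 0 ≤ ζ ∧ ζ < ζ₁ ∧ ζ₁ ≤ θ s t ∧
      AC E θ x (s, t, ζ) ψ ∧ AC E θ (s, t, ζ₁) y (φ - ψ - (ζ₁ - ζ)) := by
  induction h with
  | nil => exact fun ψ h1 h2 => absurd h2 (not_lt.2 h1)
  | @cons x z y δ φ h1 h2 ih =>
    intro ψ h3 h4
    by_cases h5 : δ ≤ ψ
    · obtain ⟨s, t, ζ, ζ₁, h6, h7, h8, h9, h10, h11⟩ := ih (ψ - δ) (by linarith) (by linarith)
      exact ⟨s, t, ζ, ζ₁, h6, h7, h8, h9, (AC.cons h1 h10).cast (by ring), h11.cast (by ring)⟩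
    · push Not at h5
      cases h1 with
      | @move a b α β p1 p2 =>
        rcases le_total α β with h6 | h6
        · rw [abs_of_nonpos (by linarith)] at h5 ⊢
          have p3 : Pt E θ (a, b, α + ψ) := ⟨p1.1, by have := p1.2.1; simp only at this ⊢; linarith,
            by have := p2.2.2; simp only at this ⊢; linarith⟩
          refine ⟨a, b, α + ψ, β, p1.1, p3.2.1, by linarith, p2.2.2, ?_, h2.cast (by ring)⟩
          refine (AC.of _ _ (St.move p1 p3)).cast ?_
          rw [abs_of_nonpos (by linarith)]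
          ring
        · rw [abs_of_nonneg (by linarith)] at h5 ⊢
          have p3 : Pt E θ (a, b, α - ψ) := ⟨p1.1, by have := p2.2.1; simp only at this ⊢; linarith,
            by have := p1.2.2; simp only at this ⊢; linarith⟩
          have p4 := p3.swap hG.symm hG.comm
          have p5 := p2.swap hG.symm hG.comm
          refine ⟨b, a, θ a b - (α - ψ), θ a b - β, hG.symm _ _ p1.1, p4.2.1, by linarith, p5.2.2,
            ?_, ?_⟩
          · refine ((AC.of _ _ (St.move p1 p3)).trans (AC.of _ _ (St.swap p3))).cast ?_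
            rw [abs_of_nonneg (by linarith)]
            ring
          · have h7 := AC.of _ _ ((St.swap p2).symm hG.symm hG.comm)
            exact (h7.trans h2).cast (by ring)
      | swap => exact absurd h5 (not_lt.2 h3)
      | switch => exact absurd h5 (not_lt.2 h3)

end Pool.Agent.Helper37.MG
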