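import Pool.Agent.Helper37.MG.Chain

/-!
# Truncated distances and the circle
-/

set_option autoImplicit false

namespace Pool.Agent.Helper37.MG

open Real Finset

variable {V : Type}

/-- The distance from `c` to `a`, plus `o`, truncated at `π`. -/
noncomputable def Ds (E : V → V → Prop) (θ : V → V → ℝ) (c : V) (o : ℝ) (a : V) : ℝ :=
  sInf (insert π {r | ∃ L, Wk E θ c a L ∧ r = o + L})

variable {E : V → V → Prop} {θ : V → V → ℝ} {c a b : V} {o : ℝ}

theorem Ds.least (hG : WG E θ) (c : V) (ho : 0 ≤ o) (a : V) :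
    IsLeast (insert π {r | ∃ L, Wk E θ c a L ∧ r = o + L}) (Ds E θ c o a) := by
  obtain ⟨S, hS⟩ : ∃ S, S = insert π {r | ∃ L, Wk E θ c a L ∧ r = o + L} := ⟨_, rfl⟩
  have hfin : (S ∩ Set.Iic π).Finite := by
    refine ((Set.finite_singleton π).union ((hG.finite_le π).image fun L => o + L)).subset ?_
    rw [hS]
    rintro r ⟨h1 | ⟨L, h1, h2⟩, h3⟩
    · exact Or.inl h1
    · have h3 : r ≤ π := h3
      exact Or.inr ⟨L, ⟨c, a, h1, by linarith⟩, h2.symm⟩
  obtain ⟨m, hm1, hm2⟩ := hfin.exists_minimalFor id _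
    ⟨π, by rw [hS]; exact Set.mem_insert _ _, le_refl π⟩
  have hl : IsLeast S m := by
    refine ⟨hm1.1, fun r hr => ?_⟩
    rcases le_total r π with h | h
    · rcases le_total m r with h3 | h3
      · exact h3
      · exact hm2 ⟨hr, h⟩ h3
    · exact le_trans hm1.2 h
  have : Ds E θ c o a = m := by
    unfold Ds
    rw [← hS]
    exact hl.csInf_eq
  rw [this, ← hS]
  exact hl

theorem Ds.le_pi (hG : WG E θ) (c : V) (ho : 0 ≤ o) (a : V) : Ds E θ c o a ≤ π :=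
  (Ds.least hG c ho a).2 (Set.mem_insert _ _)

theorem Ds.le (hG : WG E θ) (ho : 0 ≤ o) {L : ℝ} (h : Wk E θ c a L) : Ds E θ c o a ≤ o + L :=
  (Ds.least hG c ho a).2 (Set.mem_insert_of_mem _ ⟨L, h, rfl⟩)

theorem Ds.attained (hG : WG E θ) (c : V) (ho : 0 ≤ o) (a : V) :
    Ds E θ c o a = π ∨ ∃ L, Wk E θ c a L ∧ Ds E θ c o a = o + L :=
  (Ds.least hG c ho a).1

theorem Ds.ge (hG : WG E θ) (c : V) (ho : 0 ≤ o) (ho' : o ≤ π) (a : V) : o ≤ Ds E θ c o a := by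
  rcases Ds.attained hG c ho a with h | ⟨L, h1, h2⟩
  · rw [h]; exact ho'
  · rw [h2]
    linarith [h1.nonneg hG.pos]

theorem Ds.self (hG : WG E θ) (c : V) (ho : 0 ≤ o) (ho' : o ≤ π) : Ds E θ c o c = o := by
  refine le_antisymm ?_ (Ds.ge hG c ho ho' c)
  have := Ds.le hG (a := c) ho (Wk.nil c)
  rwa [add_zero] at this

theorem Ds.lip (hG : WG E θ) (c : V) (ho : 0 ≤ o) (h : E a b) :
    Ds E θ c o b ≤ Ds E θ c o a + θ a b := by
  rcases Ds.attained hG c ho a with h1 | ⟨L, h1, h2⟩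
  · rw [h1]
    have := Ds.le_pi hG c ho b
    have := hG.pos _ _ h
    linarith
  · have := Ds.le hG (a := b) ho (h1.append (Wk.single h))
    rw [h2]
    linarith

/-- The distance on the circle of length `2π`. -/
def CD (x y δ : ℝ) : Prop := ∃ n : ℤ, |x - y - 2 * π * n| ≤ δ

theorem CD.of_abs {x y δ : ℝ} (h : |x - y| ≤ δ) : CD x y δ := ⟨0, by simpa using h⟩

theorem CD.symm {x y δ : ℝ} (h : CD x y δ) : CD y x δ := by
  obtain ⟨n, hn⟩ := h
  refine ⟨-n, ?_⟩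
  rw [abs_sub_comm] at hn
  have : y - x - 2 * π * ((-n : ℤ) : ℝ) = 2 * π * n - (x - y) := by push_cast; ring
  rw [this]
  exact hn

theorem CD.trans {x y z δ ε : ℝ} (h : CD x y δ) (h' : CD y z ε) : CD x z (δ + ε) := by
  obtain ⟨n, hn⟩ := h
  obtain ⟨m, hm⟩ := h'
  refine ⟨n + m, ?_⟩
  have : x - z - 2 * π * ((n + m : ℤ) : ℝ) = (x - y - 2 * π * n) + (y - z - 2 * π * m) := by
    push_cast; ring
  rw [this]
  exact (abs_add_le _ _).trans (add_le_add hn hm)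

theorem CD.mono {x y δ ε : ℝ} (h : CD x y δ) (hle : δ ≤ ε) : CD x y ε := by
  obtain ⟨n, hn⟩ := h
  exact ⟨n, hn.trans hle⟩

theorem CD.cos {x y δ : ℝ} (h : CD x y δ) (h1 : δ ≤ π) : Real.cos δ ≤ Real.cos (x - y) := by
  obtain ⟨n, hn⟩ := h
  have h2 : Real.cos (x - y) = Real.cos |x - y - 2 * π * n| := by
    rw [Real.cos_abs]
    have : x - y - 2 * π * n = x - y - n * (2 * π) := by ring
    rw [this, Real.cos_sub_int_mul_two_pi]
  rw [h2]
  exact Real.cos_le_cos_of_nonneg_of_le_pi (abs_nonneg _) h1 hn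

theorem CD.cases {x y δ : ℝ} (h : CD x y δ) (h0 : 0 ≤ x - y) (h1 : x - y ≤ 2 * π) :
    x - y ≤ δ ∨ 2 * π - (x - y) ≤ δ := by
  obtain ⟨n, hn⟩ := h
  have hpi := Real.pi_pos
  obtain ⟨h2, h3⟩ := abs_le.1 hn
  rcases lt_or_ge n 1 with h4 | h4
  · left
    have : (n : ℝ) ≤ 0 := by exact_mod_cast (by omega : n ≤ 0)
    nlinarith
  · right
    have : (1 : ℝ) ≤ n := by exact_mod_cast h4
    nlinarith

end Pool.Agent.Helper37.MG
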