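import Pool.Agent.Helper37.MG.Dist

/-!
# Unfolding a metric graph onto the circle
-/

set_option autoImplicit false

namespace Pool.Agent.Helper37.MG

open Real Finset

variable {V : Type}

/-- The truncated distance from `c` plus `o`, at a point. -/
noncomputable def Dc (E : V → V → Prop) (θ : V → V → ℝ) (c : V) (o : ℝ) (x : V × V × ℝ) : ℝ :=
  min π (min (Ds E θ c o x.1 + x.2.2) (Ds E θ c o x.2.1 + (θ x.1 x.2.1 - x.2.2)))

variable {E : V → V → Prop} {θ : V → V → ℝ} {c a b s t : V} {o ζ : ℝ}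

theorem Dc.le_pi (x : V × V × ℝ) : Dc E θ c o x ≤ π := min_le_left _ _

theorem Dc.nonneg (hG : WG E θ) (ho : 0 ≤ o) (ho' : o ≤ π) {E' : V → V → Prop} {x : V × V × ℝ}
    (hx : Pt E' θ x) : 0 ≤ Dc E θ c o x := by
  refine le_min Real.pi_pos.le (le_min ?_ ?_)
  · have := Ds.ge hG c ho ho' x.1
    linarith [hx.2.1]
  · have := Ds.ge hG c ho ho' x.2.1
    linarith [hx.2.2]

theorem Dc.swap (hc : ∀ a b, θ a b = θ b a) (α : ℝ) :
    Dc E θ c o (b, a, θ a b - α) = Dc E θ c o (a, b, α) := by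
  unfold Dc
  simp only
  rw [hc b a, sub_sub_cancel, min_comm (Ds E θ c o b + _)]

theorem Dc.zero (hG : WG E θ) (ho : 0 ≤ o) (h : E a b) :
    Dc E θ c o (a, b, 0) = Ds E θ c o a := by
  unfold Dc
  simp only
  have h1 := Ds.lip hG c ho (hG.symm _ _ h)
  have h2 := Ds.le_pi hG c ho a
  rw [hG.comm b a] at h1
  rw [add_zero, sub_zero, min_eq_left h1, min_eq_right h2]

theorem Dc.lip (α β : ℝ) : |Dc E θ c o (a, b, α) - Dc E θ c o (a, b, β)| ≤ |α - β| := by
  unfold Dc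
  simp only
  have h1 := abs_min_sub_min_le_max π (min (Ds E θ c o a + α) (Ds E θ c o b + (θ a b - α))) π
    (min (Ds E θ c o a + β) (Ds E θ c o b + (θ a b - β)))
  have h2 := abs_min_sub_min_le_max (Ds E θ c o a + α) (Ds E θ c o b + (θ a b - α))
    (Ds E θ c o a + β) (Ds E θ c o b + (θ a b - β))
  rw [sub_self, abs_zero] at h1
  have h3 : |Ds E θ c o a + α - (Ds E θ c o a + β)| = |α - β| := by congr 1; ring
  have h4 : |Ds E θ c o b + (θ a b - α) - (Ds E θ c o b + (θ a b - β))| = |α - β| := by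
    rw [abs_sub_comm α β]; congr 1; ring
  rw [h3, h4, max_self] at h2
  exact h1.trans (max_le (abs_nonneg _) h2)

/-- The truncated distance is attained. -/
theorem Dc.reach (hG : WG E θ) {E' : V → V → Prop} (hG' : WG E' θ) (hE : ∀ a b, E' a b → E a b)
    (ho : 0 ≤ o) {d : V} (hcd : E c d) {x : V × V × ℝ} (hx : Pt E θ x) (h : Dc E' θ c o x < π) :
    ∃ M, AC E θ (c, d, 0) x M ∧ Dc E' θ c o x = o + M := by
  obtain ⟨a, b, α⟩ := x
  have h1 : min (Ds E' θ c o a + α) (Ds E' θ c o b + (θ a b - α)) < π := by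
    by_contra h2
    push Not at h2
    have : Dc E' θ c o (a, b, α) = π := min_eq_left h2
    exact absurd this h.ne
  have h2 : Dc E' θ c o (a, b, α) = min (Ds E' θ c o a + α) (Ds E' θ c o b + (θ a b - α)) :=
    min_eq_right h1.le
  have hx1 := hx.2.1
  have hx2 := hx.2.2
  simp only at hx1 hx2
  rcases min_choice (Ds E' θ c o a + α) (Ds E' θ c o b + (θ a b - α)) with h3 | h3
  · rw [h2, h3]
    rw [h3] at h1
    rcases Ds.attained hG' c ho a with h4 | ⟨L, h4, h5⟩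
    · rw [h4] at h1
      linarith
    · refine ⟨L + α, ?_, by rw [h5]; ring⟩
      refine (AC.of_wk hG (h4.mono hE) d b hcd hx.1).trans ?_
      refine (AC.of _ _ (St.move (Pt.zero hG.pos hx.1) hx)).cast ?_
      rw [zero_sub, abs_neg, abs_of_nonneg hx1]
  · rw [h2, h3]
    rw [h3] at h1
    rcases Ds.attained hG' c ho b with h4 | ⟨L, h4, h5⟩
    · rw [h4] at h1
      linarith
    · refine ⟨L + (θ a b - α), ?_, by rw [h5]; ring⟩
      refine (AC.of_wk hG (h4.mono hE) d a hcd (hG.symm _ _ hx.1)).trans ?_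
      have hx' := hx.swap hG.symm hG.comm
      have e1 := AC.of _ _ (St.move (Pt.zero hG.pos (hG.symm _ _ hx.1)) hx')
      have e2 := AC.of _ _ ((St.swap hx).symm hG.symm hG.comm)
      refine (e1.trans e2).cast ?_
      rw [zero_sub, abs_neg, abs_of_nonneg (by linarith), add_zero]

/-- Walks which avoid the edge `s`, `t`. -/
theorem WG.sum (hG : WG E θ) (hst : E s t) {L M : ℝ} (h : Wk (Dl E s t) θ t a L)
    (h' : Wk (Dl E s t) θ s a M) : 2 * π ≤ θ s t + L + M := by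
  have := hG.circ hst (h.append (h'.reverse (hG.dl s t).symm hG.comm))
  linarith

open Classical in
/-- The unfolding map based at the point `(s, t, ζ)`. -/
noncomputable def F (E : V → V → Prop) (θ : V → V → ℝ) (s t : V) (ζ : ℝ) (x : V × V × ℝ) : ℝ :=
  if x.1 = s ∧ x.2.1 = t then x.2.2 - ζ
  else if x.1 = t ∧ x.2.1 = s then θ x.1 x.2.1 - x.2.2 - ζ
  else if Dc (Dl E s t) θ t (θ s t - ζ) x < π then Dc (Dl E s t) θ t (θ s t - ζ) x
  else - Dc (Dl E s t) θ s ζ x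

section

theorem F_st (s t : V) (ζ α : ℝ) : F E θ s t ζ (s, t, α) = α - ζ := if_pos ⟨rfl, rfl⟩

theorem F_ts (hst : s ≠ t) (ζ α : ℝ) : F E θ s t ζ (t, s, α) = θ t s - α - ζ := by
  unfold F
  rw [if_neg (fun h => hst h.1.symm), if_pos ⟨rfl, rfl⟩]

open Classical in
theorem F_other {x : V × V × ℝ} (h1 : ¬ (x.1 = s ∧ x.2.1 = t)) (h2 : ¬ (x.1 = t ∧ x.2.1 = s)) :
    F E θ s t ζ x = if Dc (Dl E s t) θ t (θ s t - ζ) x < π then Dc (Dl E s t) θ t (θ s t - ζ) x
      else - Dc (Dl E s t) θ s ζ x := by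
  unfold F
  rw [if_neg h1, if_neg h2]

theorem F_self : F E θ s t ζ (s, t, ζ) = 0 := by rw [F_st, sub_self]

/-- The value at a vertex. -/
theorem F_zero (hG : WG E θ) (hst : E s t) (h0 : 0 ≤ ζ) (h1 : ζ ≤ θ s t) (h : E a b) :
    F E θ s t ζ (a, b, 0) = if Ds (Dl E s t) θ t (θ s t - ζ) a < π then
      Ds (Dl E s t) θ t (θ s t - ζ) a else - Ds (Dl E s t) θ s ζ a := by
  have hG' := hG.dl s t
  have hne : s ≠ t := fun h => hG.irrefl _ (h ▸ hst)
  have hlt := hG.lt _ _ hst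
  have hpos := hG.pos _ _ hst
  by_cases h2 : a = s ∧ b = t
  · obtain ⟨rfl, rfl⟩ := h2
    rw [F_st]
    have h3 : Ds (Dl E a b) θ b (θ a b - ζ) a = π := by
      rcases Ds.attained hG' b (sub_nonneg.2 h1) a with h3 | ⟨L, h3, h4⟩
      · exact h3
      · exfalso
        have := hG.circ hst h3
        have := Ds.le_pi hG' b (sub_nonneg.2 h1) a
        rw [h4] at this
        linarith
    rw [if_neg (by rw [h3]; exact lt_irrefl _), Ds.self hG' a h0 (by linarith)]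
    ring
  · by_cases h3 : a = t ∧ b = s
    · obtain ⟨rfl, rfl⟩ := h3
      rw [F_ts hne, Ds.self hG' a (sub_nonneg.2 h1) (by linarith), hG.comm a b,
        if_pos (by linarith)]
      ring
    · rw [F_other h2 h3, Dc.zero hG' (sub_nonneg.2 h1) ⟨h, h2, h3⟩, Dc.zero hG' h0 ⟨h, h2, h3⟩]

theorem F_switch (hG : WG E θ) (hst : E s t) (h0 : 0 ≤ ζ) (h1 : ζ ≤ θ s t) {d : V} (h : E a b)
    (h' : E a d) : F E θ s t ζ (a, b, 0) = F E θ s t ζ (a, d, 0) := by
  rw [F_zero hG hst h0 h1 h, F_zero hG hst h0 h1 h']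

theorem F_swap (hG : WG E θ) (hst : E s t) (α : ℝ) :
    F E θ s t ζ (b, a, θ a b - α) = F E θ s t ζ (a, b, α) := by
  have hne : s ≠ t := fun h => hG.irrefl _ (h ▸ hst)
  by_cases h2 : a = s ∧ b = t
  · obtain ⟨rfl, rfl⟩ := h2
    rw [F_st, F_ts hne, hG.comm b a]
    ring
  · by_cases h3 : a = t ∧ b = s
    · obtain ⟨rfl, rfl⟩ := h3
      rw [F_st, F_ts hne]
    · rw [F_other (x := (a, b, α)) h2 h3, F_other (x := (b, a, θ a b - α))
        (fun h => h3 ⟨h.2, h.1⟩) (fun h => h2 ⟨h.2, h.1⟩), Dc.swap hG.comm, Dc.swap hG.comm]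

/-- The cross inequality. -/
theorem Dc.cross (hG : WG E θ) (hst : E s t) (h0 : 0 ≤ ζ) (h1 : ζ ≤ θ s t) (hab : Dl E s t a b)
    {α β : ℝ} (hα : 0 ≤ α) (hα' : α ≤ θ a b) (hβ : 0 ≤ β) (hβ' : β ≤ θ a b)
    (hA : Dc (Dl E s t) θ t (θ s t - ζ) (a, b, α) < π) (hB : Dc (Dl E s t) θ s ζ (a, b, β) < π) :
    2 * π ≤ Dc (Dl E s t) θ t (θ s t - ζ) (a, b, α) + Dc (Dl E s t) θ s ζ (a, b, β) +
      |α - β| := by
  have hG' := hG.dl s t
  have h2 : 0 ≤ θ s t - ζ := sub_nonneg.2 h1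
  unfold Dc at hA hB ⊢
  simp only at hA hB ⊢
  have hA' : min (Ds (Dl E s t) θ t (θ s t - ζ) a + α)
      (Ds (Dl E s t) θ t (θ s t - ζ) b + (θ a b - α)) < π := by
    rcases min_lt_iff.1 hA with h | h
    · exact absurd h (lt_irrefl _)
    · exact h
  have hB' : min (Ds (Dl E s t) θ s ζ a + β) (Ds (Dl E s t) θ s ζ b + (θ a b - β)) < π := by
    rcases min_lt_iff.1 hB with h | h
    · exact absurd h (lt_irrefl _)
    · exact h
  rw [min_eq_right hA'.le, min_eq_right hB'.le]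
  have e1 := le_abs_self (α - β)
  have e2 := neg_abs_le (α - β)
  -- the four cases
  have key : ∀ p q : V, ∀ x y : ℝ, 0 ≤ x → 0 ≤ y → Ds (Dl E s t) θ t (θ s t - ζ) p + x < π →
      Ds (Dl E s t) θ s ζ q + y < π → ∀ M : ℝ, Wk (Dl E s t) θ p q M →
      2 * π ≤ Ds (Dl E s t) θ t (θ s t - ζ) p + Ds (Dl E s t) θ s ζ q + M := by
    intro p q x y hx hy h3 h4 M hM
    rcases Ds.attained hG' t h2 p with h5 | ⟨L, h5, h6⟩
    · rw [h5] at h3; linarith
    rcases Ds.attained hG' s h0 q with h7 | ⟨L', h7, h8⟩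
    · rw [h7] at h4; linarith
    have := hG.sum hst (h5.append hM) h7
    rw [h6, h8]
    linarith
  rcases min_choice (Ds (Dl E s t) θ t (θ s t - ζ) a + α)
    (Ds (Dl E s t) θ t (θ s t - ζ) b + (θ a b - α)) with h3 | h3 <;>
  rcases min_choice (Ds (Dl E s t) θ s ζ a + β)
    (Ds (Dl E s t) θ s ζ b + (θ a b - β)) with h4 | h4 <;>
  rw [h3] at hA' ⊢ <;> rw [h4] at hB' ⊢
  · have := key a a α β hα hβ hA' hB' 0 (Wk.nil _)
    linarith
  · have := key a b α (θ a b - β) hα (by linarith) hA' hB' _ (Wk.single hab)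
    linarith
  · have := key b a (θ a b - α) β (by linarith) hβ hA' hB' _
      (Wk.single (θ := θ) (hG'.symm _ _ hab))
    rw [hG.comm b a] at this
    linarith
  · have := key b b (θ a b - α) (θ a b - β) (by linarith) (by linarith) hA' hB' 0 (Wk.nil _)
    linarith

/-- The unfolding map is 1-Lipschitz. -/
theorem F_move (hG : WG E θ) (hst : E s t) (h0 : 0 ≤ ζ) (h1 : ζ ≤ θ s t) {α β : ℝ}
    (p1 : Pt E θ (a, b, α)) (p2 : Pt E θ (a, b, β)) :
    CD (F E θ s t ζ (a, b, α)) (F E θ s t ζ (a, b, β)) |α - β| := by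
  have hne : s ≠ t := fun h => hG.irrefl _ (h ▸ hst)
  by_cases h2 : a = s ∧ b = t
  · obtain ⟨rfl, rfl⟩ := h2
    rw [F_st, F_st]
    refine CD.of_abs ?_
    rw [sub_sub_sub_cancel_right]
  by_cases h3 : a = t ∧ b = s
  · obtain ⟨rfl, rfl⟩ := h3
    rw [F_ts hne, F_ts hne]
    refine CD.of_abs ?_
    rw [sub_sub_sub_cancel_right, abs_sub_comm α β]
    exact le_of_eq (by congr 1; ring)
  have hab : Dl E s t a b := ⟨p1.1, h2, h3⟩
  have hα := p1.2.1
  have hα' := p1.2.2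
  have hβ := p2.2.1
  have hβ' := p2.2.2
  simp only at hα hα' hβ hβ'
  rw [F_other h2 h3, F_other h2 h3]
  have l1 := Dc.lip (E := Dl E s t) (θ := θ) (c := t) (o := θ s t - ζ) (a := a) (b := b) α β
  have l2 := Dc.lip (E := Dl E s t) (θ := θ) (c := s) (o := ζ) (a := a) (b := b) α β
  have c1 := Dc.cross hG hst h0 h1 hab hα hα' hβ hβ'
  have c2 := Dc.cross hG hst h0 h1 hab hβ hβ' hα hα'
  have u1 := Dc.le_pi (E := Dl E s t) (θ := θ) (c := t) (o := θ s t - ζ) (a, b, α)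
  have u2 := Dc.le_pi (E := Dl E s t) (θ := θ) (c := t) (o := θ s t - ζ) (a, b, β)
  have u3 := Dc.le_pi (E := Dl E s t) (θ := θ) (c := s) (o := ζ) (a, b, α)
  have u4 := Dc.le_pi (E := Dl E s t) (θ := θ) (c := s) (o := ζ) (a, b, β)
  rw [abs_sub_comm β α] at c2
  generalize Dc (Dl E s t) θ t (θ s t - ζ) (a, b, α) = X at *
  generalize Dc (Dl E s t) θ t (θ s t - ζ) (a, b, β) = Y at *
  generalize Dc (Dl E s t) θ s ζ (a, b, α) = X' at *
  generalize Dc (Dl E s t) θ s ζ (a, b, β) = Y' at *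
  split_ifs with hX hY hY
  · exact CD.of_abs l1
  · -- X < π, Y = π
    have hY' : Y = π := le_antisymm u2 (not_lt.1 hY)
    refine ⟨1, ?_⟩
    push_cast
    rcases lt_or_ge Y' π with h4 | h4
    · have := c1 hX h4
      rw [abs_of_nonpos (by linarith)]
      linarith
    · have h5 : Y' = π := le_antisymm u4 h4
      rw [h5]
      rw [hY'] at l1
      refine le_trans (le_of_eq ?_) l1
      congr 1
      ring
  · have hX' : X = π := le_antisymm u1 (not_lt.1 hX)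
    refine ⟨-1, ?_⟩
    push_cast
    rcases lt_or_ge X' π with h4 | h4
    · have := c2 hY h4
      rw [abs_of_nonneg (by linarith)]
      linarith
    · have h5 : X' = π := le_antisymm u3 h4
      rw [h5]
      rw [hX'] at l1
      refine le_trans (le_of_eq ?_) l1
      congr 1
      ring
  · refine CD.of_abs ?_
    rw [neg_sub_neg, abs_sub_comm]
    exact l2

/-- The unfolding map is 1-Lipschitz along chains. -/
theorem F_ac (hG : WG E θ) (hst : E s t) (h0 : 0 ≤ ζ) (h1 : ζ ≤ θ s t) {x y : V × V × ℝ} {φ : ℝ}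
    (h : AC E θ x y φ) : CD (F E θ s t ζ x) (F E θ s t ζ y) φ := by
  induction h with
  | nil => exact CD.of_abs (by simp)
  | cons h2 _ ih =>
    refine CD.trans ?_ ih
    cases h2 with
    | move p1 p2 => exact F_move hG hst h0 h1 p1 p2
    | swap p1 => exact CD.of_abs (by rw [F_swap hG hst]; simp)
    | switch p1 p2 => exact CD.of_abs (by rw [F_switch hG hst h0 h1 p1 p2]; simp)

theorem F_abs_le (hG : WG E θ) (hst : E s t) (h0 : 0 ≤ ζ) (h1 : ζ ≤ θ s t) {x : V × V × ℝ}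
    (hx : Pt E θ x) : |F E θ s t ζ x| ≤ π := by
  have hG' := hG.dl s t
  have hne : s ≠ t := fun h => hG.irrefl _ (h ▸ hst)
  have hlt := hG.lt _ _ hst
  obtain ⟨a, b, α⟩ := x
  have hα := hx.2.1
  have hα' := hx.2.2
  simp only at hα hα'
  by_cases h2 : a = s ∧ b = t
  · obtain ⟨rfl, rfl⟩ := h2
    rw [F_st]
    exact abs_le.2 ⟨by linarith, by linarith⟩
  by_cases h3 : a = t ∧ b = s
  · obtain ⟨rfl, rfl⟩ := h3
    rw [F_ts hne]
    rw [hG.comm] at hα' ⊢
    exact abs_le.2 ⟨by linarith, by linarith⟩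
  rw [F_other h2 h3]
  have n1 := Dc.nonneg hG' (c := t) (sub_nonneg.2 h1) (by linarith) hx
  have n2 := Dc.nonneg hG' (c := s) h0 (by linarith) hx
  split_ifs with h4
  · rw [abs_of_nonneg n1]
    exact h4.le
  · rw [abs_neg, abs_of_nonneg n2]
    exact Dc.le_pi _

/-- The value is a distance. -/
theorem F_reach (hG : WG E θ) (hst : E s t) (h0 : 0 ≤ ζ) (h1 : ζ ≤ θ s t) {x : V × V × ℝ}
    (hx : Pt E θ x) (h : |F E θ s t ζ x| < π) : AC E θ (s, t, ζ) x |F E θ s t ζ x| := by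
  have hG' := hG.dl s t
  have hne : s ≠ t := fun h => hG.irrefl _ (h ▸ hst)
  have hlt := hG.lt _ _ hst
  have hz : Pt E θ (s, t, ζ) := ⟨hst, h0, h1⟩
  obtain ⟨a, b, α⟩ := x
  have hα := hx.2.1
  have hα' := hx.2.2
  simp only at hα hα'
  by_cases h2 : a = s ∧ b = t
  · obtain ⟨rfl, rfl⟩ := h2
    rw [F_st, abs_sub_comm]
    exact AC.of _ _ (St.move hz hx)
  by_cases h3 : a = t ∧ b = s
  · obtain ⟨rfl, rfl⟩ := h3
    have hx' := hx.swap hG.symm hG.comm
    refine ((AC.of _ _ (St.move hz hx')).trans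
      (AC.of _ _ ((St.swap hx).symm hG.symm hG.comm))).cast ?_
    rw [F_ts hne, add_zero, abs_sub_comm]
  rw [F_other h2 h3] at h ⊢
  have n1 := Dc.nonneg hG' (c := t) (sub_nonneg.2 h1) (by linarith) hx
  have n2 := Dc.nonneg hG' (c := s) h0 (by linarith) hx
  split_ifs at h ⊢ with h4
  · obtain ⟨M, h5, h6⟩ := Dc.reach hG hG' (fun _ _ h => h.1) (sub_nonneg.2 h1) (hG.symm _ _ hst)
      hx h4
    have e1 := AC.of _ _ (St.move hz (Pt.last hG.pos hst))
    have e2 := AC.of _ _ (St.swap (Pt.last hG.pos hst))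
    rw [sub_self] at e2
    refine (e1.trans (e2.trans h5)).cast ?_
    rw [abs_of_nonneg n1, h6, abs_of_nonpos (by linarith)]
    ring
  · rw [abs_neg, abs_of_nonneg n2] at h ⊢
    obtain ⟨M, h5, h6⟩ := Dc.reach hG hG' (fun _ _ h => h.1) h0 hst hx h
    have e1 := AC.of _ _ (St.move hz (Pt.zero hG.pos hst))
    refine (e1.trans h5).cast ?_
    rw [h6, sub_zero, abs_of_nonneg h0]

/-- Points on the positive side. -/
theorem F_side (hG : WG E θ) (hst : E s t) (h0 : 0 ≤ ζ) {ζ₁ : ℝ} (h2 : ζ < ζ₁) (h3 : ζ₁ ≤ θ s t)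
    {x : V × V × ℝ} (hx : Pt E θ x) (h : 0 < F E θ s t ζ x) (h' : F E θ s t ζ x < π) :
    AC E θ (s, t, ζ₁) x |F E θ s t ζ x - (ζ₁ - ζ)| := by
  have hG' := hG.dl s t
  have hne : s ≠ t := fun h => hG.irrefl _ (h ▸ hst)
  have hlt := hG.lt _ _ hst
  have h1 : ζ ≤ θ s t := by linarith
  have hz : Pt E θ (s, t, ζ₁) := ⟨hst, by simp only; linarith, h3⟩
  obtain ⟨a, b, α⟩ := x
  have hα := hx.2.1
  have hα' := hx.2.2
  simp only at hα hα'
  by_cases h4 : a = s ∧ b = t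
  · obtain ⟨rfl, rfl⟩ := h4
    rw [F_st, abs_sub_comm]
    refine (AC.of _ _ (St.move hz hx)).cast ?_
    congr 1
    ring
  by_cases h5 : a = t ∧ b = s
  · obtain ⟨rfl, rfl⟩ := h5
    have hx' := hx.swap hG.symm hG.comm
    refine ((AC.of _ _ (St.move hz hx')).trans
      (AC.of _ _ ((St.swap hx).symm hG.symm hG.comm))).cast ?_
    rw [F_ts hne, add_zero, abs_sub_comm]
    congr 1
    ring
  rw [F_other h4 h5] at h h' ⊢
  have n1 := Dc.nonneg hG' (c := t) (sub_nonneg.2 h1) (by linarith) hx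
  have n2 := Dc.nonneg hG' (c := s) h0 (by linarith) hx
  split_ifs at h h' ⊢ with h6
  · obtain ⟨M, h7, h8⟩ := Dc.reach hG hG' (fun _ _ h => h.1) (sub_nonneg.2 h1) (hG.symm _ _ hst)
      hx h6
    have e1 := AC.of _ _ (St.move hz (Pt.last hG.pos hst))
    have e2 := AC.of _ _ (St.swap (Pt.last hG.pos hst))
    rw [sub_self] at e2
    refine (e1.trans (e2.trans h7)).cast ?_
    have := h7.nonneg
    rw [h8, abs_of_nonpos (by linarith), abs_of_nonneg (by linarith)]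
    ring
  · linarith

end

end Pool.Agent.Helper37.MG
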