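import Mathlib

/-!
# Weighted graphs without short circuits
-/

set_option autoImplicit false

namespace Pool.Agent.Helper37.MG

open Real Finset

variable {V : Type}

/-- A walk from `a` to `c` along the edges `E` of total length `L`. -/
inductive Wk (E : V → V → Prop) (θ : V → V → ℝ) : V → V → ℝ → Prop
  | nil (a : V) : Wk E θ a a 0
  | cons {a b c : V} {L : ℝ} : E a b → Wk E θ b c L → Wk E θ a c (θ a b + L)

/-- A weighted graph: edges `E` of lengths `θ` between `0` and `π`, of which there are only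
finitely many, such that each circuit has length at least `2π`. -/
structure WG (E : V → V → Prop) (θ : V → V → ℝ) : Prop where
  symm : ∀ a b, E a b → E b a
  irrefl : ∀ a, ¬ E a a
  comm : ∀ a b, θ a b = θ b a
  pos : ∀ a b, E a b → 0 < θ a b
  lt : ∀ a b, E a b → θ a b < π
  fin : {r | ∃ a b, E a b ∧ r = θ a b}.Finite
  girth : ∀ (k : ℕ) (u : ZMod (k + 3) → V), Function.Injective u →
    (∀ i, E (u i) (u (i + 1))) → 2 * π ≤ ∑ i, θ (u i) (u (i + 1))

variable {E : V → V → Prop} {θ : V → V → ℝ}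

theorem Wk.single {a b : V} (h : E a b) : Wk E θ a b (θ a b) := by
  have := Wk.cons (θ := θ) h (Wk.nil b)
  rwa [add_zero] at this

theorem Wk.append {a b c : V} {L M : ℝ} (h : Wk E θ a b L) (h' : Wk E θ b c M) :
    Wk E θ a c (L + M) := by
  induction h with
  | nil => rwa [zero_add]
  | cons h1 _ ih => rw [add_assoc]; exact Wk.cons h1 (ih h')

theorem Wk.reverse (hs : ∀ a b, E a b → E b a) (hc : ∀ a b, θ a b = θ b a) {a b : V} {L : ℝ}
    (h : Wk E θ a b L) : Wk E θ b a L := by
  induction h with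
  | nil => exact Wk.nil _
  | @cons a b c L h1 _ ih =>
    have := ih.append (Wk.single (θ := θ) (hs _ _ h1))
    rwa [hc b a, add_comm] at this

theorem Wk.mono {E' : V → V → Prop} (hE : ∀ a b, E a b → E' a b) {a b : V} {L : ℝ}
    (h : Wk E θ a b L) : Wk E' θ a b L := by
  induction h with
  | nil => exact Wk.nil _
  | cons h1 _ ih => exact Wk.cons (hE _ _ h1) ih

theorem Wk.nonneg (hp : ∀ a b, E a b → 0 < θ a b) {a b : V} {L : ℝ} (h : Wk E θ a b L) :
    0 ≤ L := by
  induction h with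
  | nil => exact le_rfl
  | @cons a b c L h1 _ ih => linarith [hp _ _ h1]

/-- Walks as functions. -/
theorem Wk.exists_fun {a b : V} {L : ℝ} (h : Wk E θ a b L) : ∃ (n : ℕ) (p : ℕ → V), p 0 = a ∧
    p n = b ∧ (∀ i < n, E (p i) (p (i + 1))) ∧ ∑ i ∈ range n, θ (p i) (p (i + 1)) = L := by
  induction h with
  | nil a => exact ⟨0, fun _ => a, rfl, rfl, fun i hi => absurd hi (Nat.not_lt_zero i), by simp⟩
  | @cons a b c L h1 _ ih =>
    obtain ⟨n, p, h2, h3, h4, h5⟩ := ih
    refine ⟨n + 1, fun i => if i = 0 then a else p (i - 1), by simp, by simp [h3], ?_, ?_⟩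
    · intro i hi
      rcases Nat.eq_zero_or_pos i with h6 | h6
      · subst h6
        simpa [h2] using h1
      · have := h4 (i - 1) (by omega)
        rw [show i - 1 + 1 = i by omega] at this
        simp only [if_neg h6.ne', if_neg (Nat.succ_ne_zero i)]
        simpa using this
    · rw [sum_range_succ']
      simp only [Nat.succ_ne_zero, if_false, Nat.add_sub_cancel, if_true, zero_add]
      rw [h5, Nat.sub_self, h2, add_comm]

theorem exists_min_fun (hp : ∀ a b, E a b → 0 < θ a b) {a b : V} {L : ℝ} (h : Wk E θ a b L) :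
    ∃ (n : ℕ) (p : ℕ → V), p 0 = a ∧ p n = b ∧ (∀ i < n, E (p i) (p (i + 1))) ∧
      ∑ i ∈ range n, θ (p i) (p (i + 1)) ≤ L ∧ ∀ i j, i < j → j ≤ n → p i ≠ p j := by
  classical
  have hex : ∃ n : ℕ, ∃ p : ℕ → V, p 0 = a ∧ p n = b ∧ (∀ i < n, E (p i) (p (i + 1))) ∧
      ∑ i ∈ range n, θ (p i) (p (i + 1)) ≤ L := by
    obtain ⟨n, p, h1, h2, h3, h4⟩ := h.exists_fun
    exact ⟨n, p, h1, h2, h3, h4.le⟩
  obtain ⟨p, h1, h2, h3, h4⟩ := Nat.find_spec hex
  obtain ⟨n, hn⟩ : ∃ n, n = Nat.find hex := ⟨_, rfl⟩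
  rw [← hn] at h2 h3 h4
  refine ⟨n, p, h1, h2, h3, h4, fun i j hij hj he => ?_⟩
  obtain ⟨m, hm⟩ : ∃ m, n = j + m := ⟨n - j, by omega⟩
  obtain ⟨k, hk⟩ : ∃ k, j = i + k := ⟨j - i, by omega⟩
  refine Nat.find_min hex (m := i + m) (by omega)
    ⟨fun l => if l ≤ i then p l else p (l + k), by simp [h1], ?_, ?_, ?_⟩
  · by_cases h5 : m = 0
    · subst h5
      simp only [add_zero, le_refl, if_true]
      rw [← h2, hm, he, add_zero]
    · simp only [if_neg (show ¬ i + m ≤ i by omega)]
      rw [← h2, hm, hk]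
      congr 1
      omega
  · intro l hl
    by_cases h5 : l + 1 ≤ i
    · simp only [if_pos h5, if_pos (show l ≤ i by omega)]
      exact h3 l (by omega)
    · by_cases h6 : l ≤ i
      · have h7 : l = i := by omega
        subst h7
        simp only [le_refl, if_true, if_neg h5]
        have := h3 j (by omega)
        rw [← he, hk] at this
        rw [show l + 1 + k = l + k + 1 by omega]
        exact this
      · simp only [if_neg h5, if_neg h6]
        have := h3 (l + k) (by omega)
        rw [show l + 1 + k = l + k + 1 by omega]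
        exact this
  · refine le_trans ?_ h4
    have e1 : ∑ l ∈ range (i + m), θ (if l ≤ i then p l else p (l + k))
        (if l + 1 ≤ i then p (l + 1) else p (l + 1 + k)) =
        ∑ l ∈ range i, θ (p l) (p (l + 1)) + ∑ l ∈ range m, θ (p (j + l)) (p (j + l + 1)) := by
      rw [sum_range_add]
      congr 1
      · refine sum_congr rfl fun l hl => ?_
        rw [mem_range] at hl
        rw [if_pos hl.le, if_pos (by omega)]
      · refine sum_congr rfl fun l hl => ?_
        rw [if_neg (show ¬ i + l + 1 ≤ i by omega)]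
        by_cases h6 : l = 0
        · subst h6
          rw [add_zero, if_pos le_rfl, he, hk]
          congr 2
          omega
        · rw [if_neg (show ¬ i + l ≤ i by omega), hk]
          congr 2 <;> omega
    have e2 : ∑ l ∈ range n, θ (p l) (p (l + 1)) =
        ∑ l ∈ range i, θ (p l) (p (l + 1)) + (∑ l ∈ range k, θ (p (i + l)) (p (i + l + 1)) +
          ∑ l ∈ range m, θ (p (j + l)) (p (j + l + 1))) := by
      rw [hm, hk, add_assoc, sum_range_add, sum_range_add]
      congr 2
      refine sum_congr rfl fun l _ => ?_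
      simp only [add_assoc]
    have e3 : 0 ≤ ∑ l ∈ range k, θ (p (i + l)) (p (i + l + 1)) :=
      sum_nonneg fun l hl => (hp _ _ (h3 _ (by rw [mem_range] at hl; omega))).le
    change ∑ l ∈ range (i + m), θ (if l ≤ i then p l else p (l + k))
        (if l + 1 ≤ i then p (l + 1) else p (l + 1 + k)) ≤ _
    rw [e1, e2]
    linarith

/-- The edges without the edge `s`, `t`. -/
def Dl (E : V → V → Prop) (s t : V) (a b : V) : Prop :=
  E a b ∧ ¬ (a = s ∧ b = t) ∧ ¬ (a = t ∧ b = s)

/-- Walks which close up an edge. -/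
theorem WG.circ (hG : WG E θ) {s t : V} (hst : E s t) {L : ℝ} (h : Wk (Dl E s t) θ t s L) :
    2 * π ≤ θ s t + L := by
  obtain ⟨n, p, h1, h2, h3, h4, h5⟩ := exists_min_fun (fun a b h => hG.pos a b h.1) h
  have hn0 : n ≠ 0 := by
    rintro rfl
    rw [h1] at h2
    subst h2
    exact hG.irrefl _ hst
  have hn1 : n ≠ 1 := by
    rintro rfl
    have := h3 0 (by omega)
    rw [h1, zero_add, h2] at this
    exact this.2.2 ⟨rfl, rfl⟩
  obtain ⟨k, rfl⟩ : ∃ k, n = k + 2 := ⟨n - 2, by omega⟩
  have hgirth : ∀ u : Fin (k + 3) → V, Function.Injective u →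
    (∀ i, E (u i) (u (i + 1))) → 2 * π ≤ ∑ i, θ (u i) (u (i + 1)) := hG.girth k
  have key := hgirth (fun i => p i.val) ?_ ?_
  · refine key.trans ?_
    have e1 : ∑ i : Fin (k + 3), θ (p i.val) (p (i + 1).val) =
        ∑ i ∈ range (k + 2), θ (p i) (p (i + 1)) + θ s t := by
      rw [Fin.sum_univ_castSucc]
      congr 1
      · rw [← Fin.sum_univ_eq_sum_range (fun i => θ (p i) (p (i + 1)))]
        refine sum_congr rfl fun i _ => ?_
        congr 2
        rw [Fin.val_add_one_of_lt (Fin.castSucc_lt_last i)]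
        rfl
      · have : (Fin.last (k + 2) + 1 : Fin (k + 3)) = 0 := Fin.last_add_one _
        rw [this]
        simp only [Fin.val_last, Fin.val_zero]
        rw [h1, h2]
    rw [e1]
    linarith
  · intro i j hij
    by_contra hne
    rcases lt_or_gt_of_ne (fun h : i.val = j.val => hne (Fin.ext h)) with h6 | h6
    · exact h5 _ _ h6 (Nat.lt_succ_iff.1 j.isLt) hij
    · exact h5 _ _ h6 (Nat.lt_succ_iff.1 i.isLt) hij.symm
  · intro i
    rcases Fin.eq_castSucc_or_eq_last i with ⟨j, rfl⟩ | rfl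
    · rw [Fin.val_add_one_of_lt (Fin.castSucc_lt_last j)]
      exact (h3 j.val j.isLt).1
    · have : (Fin.last (k + 2) + 1 : Fin (k + 3)) = 0 := Fin.last_add_one _
      rw [this]
      simp only [Fin.val_last, Fin.val_zero]
      rw [h1, h2]
      exact hst

/-- The lengths of walks are discrete. -/
theorem WG.finite_le (hG : WG E θ) (C : ℝ) : {L | ∃ a b, Wk E θ a b L ∧ L ≤ C}.Finite := by
  classical
  obtain ⟨Θ, hΘ⟩ : ∃ Θ, Θ = {r | ∃ a b, E a b ∧ r = θ a b} := ⟨_, rfl⟩
  have hfin : Θ.Finite := hΘ ▸ hG.fin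
  -- a lower bound
  obtain ⟨m, hm0, hm⟩ : ∃ m : ℝ, 0 < m ∧ ∀ r ∈ Θ, m ≤ r := by
    rcases Θ.eq_empty_or_nonempty with h | h
    · exact ⟨1, one_pos, fun r hr => by rw [h] at hr; exact absurd hr (Set.notMem_empty r)⟩
    · obtain ⟨m, hm1, hm2⟩ := hfin.exists_minimalFor id Θ h
      refine ⟨m, ?_, fun r hr => ?_⟩
      · rw [hΘ] at hm1
        obtain ⟨a, b, h1, rfl⟩ := hm1
        exact hG.pos _ _ h1
      · rcases le_total m r with h3 | h3
        · exact h3
        · exact hm2 hr h3
  have key : ∀ N : ℕ, {L | ∃ a b, Wk E θ a b L ∧ L ≤ N * m}.Finite := by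
    intro N
    induction N with
    | zero =>
      refine (Set.finite_singleton (0 : ℝ)).subset ?_
      rintro L ⟨a, b, h1, h2⟩
      have := h1.nonneg hG.pos
      rw [Nat.cast_zero, zero_mul] at h2
      exact le_antisymm h2 this
    | succ N ih =>
      refine ((Set.finite_singleton (0 : ℝ)).union
        (Set.Finite.image2 (fun x y => x + y) hfin ih)).subset ?_
      rintro L ⟨a, b, h1, h2⟩
      cases h1 with
      | nil => exact Or.inl rfl
      | @cons a c b L' h3 h4 =>
        refine Or.inr ⟨θ a c, hΘ ▸ ⟨a, c, h3, rfl⟩, L', ⟨c, b, h4, ?_⟩, rfl⟩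
        have := hm (θ a c) (hΘ ▸ ⟨a, c, h3, rfl⟩)
        push_cast at h2
        linarith
  obtain ⟨N, hN⟩ := exists_nat_ge (C / m)
  refine (key N).subset ?_
  rintro L ⟨a, b, h1, h2⟩
  refine ⟨a, b, h1, h2.trans ?_⟩
  rwa [div_le_iff₀ hm0] at hN

theorem WG.dl (hG : WG E θ) (s t : V) : WG (Dl E s t) θ where
  symm a b h := ⟨hG.symm _ _ h.1, fun h' => h.2.2 ⟨h'.2, h'.1⟩, fun h' => h.2.1 ⟨h'.2, h'.1⟩⟩
  irrefl a h := hG.irrefl a h.1
  comm := hG.comm
  pos a b h := hG.pos a b h.1
  lt a b h := hG.lt a b h.1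
  fin := hG.fin.subset (by rintro r ⟨a, b, h, rfl⟩; exact ⟨a, b, h.1, rfl⟩)
  girth k u hu h := hG.girth k u hu fun i => (h i).1

end Pool.Agent.Helper37.MG
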